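import Pool.Agent.R745.MG.Map

/-!
# The parametrization is an injective local diffeomorphism
-/

set_option autoImplicit false
open Set Function Filter
open scoped ContDiff Topology ComplexConjugate

namespace Pool.Agent.R745.MG

noncomputable section

/-- the real linear map `k ↦ (a k + conj (k / a)) / 2` -/
def Tm (a k : ℂ) : ℂ := (a * k + conj (a⁻¹ * k)) / 2

theorem exists_deriv {w : ℂ} (hw : w ∈ S) : ∃ D : ℂ →L[ℝ] ℂ, HasStrictFDerivAt Zc D w ∧
    ∀ h, D h = Tm (af w) (Complex.sinh w * h) := by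
  have h1 := (hasStrictDerivAt_f1 hw).hasStrictFDerivAt.restrictScalars ℝ
  have h2 := (hasStrictDerivAt_f2 hw).hasStrictFDerivAt.restrictScalars ℝ
  have k1 := Complex.ofRealCLM.hasStrictFDerivAt.comp w (Complex.reCLM.hasStrictFDerivAt.comp w h1)
  have k2 := Complex.ofRealCLM.hasStrictFDerivAt.comp w (Complex.reCLM.hasStrictFDerivAt.comp w h2)
  have k3 := k1.add (k2.const_smul Complex.I)
  refine ⟨_, k3.congr_of_eventuallyEq (Eventually.of_forall fun x => ?_), ?_⟩
  · apply Complex.ext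
    · simp [Zc, f1_re]
    · simp [Zc, f2_re]
  · intro h
    simp only [ContinuousLinearMap.add_apply, ContinuousLinearMap.comp_apply,
      ContinuousLinearMap.smul_apply, ContinuousLinearMap.coe_restrictScalars',
      ContinuousLinearMap.toSpanSingleton_apply, Complex.reCLM_apply, Complex.ofRealCLM_apply,
      smul_eq_mul, Tm]
    have e : ∀ x y : ℂ, (((x + y) / 2).re : ℂ) + Complex.I * (((-Complex.I) * ((x - y) / 2)).re : ℂ)
        = (x + conj y) / 2 := by
      intro x y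
      apply Complex.ext <;> simp <;> ring
    have e1 : h * (Complex.sinh w * ((af w + (af w)⁻¹) / 2)) =
        (af w * (Complex.sinh w * h) + (af w)⁻¹ * (Complex.sinh w * h)) / 2 := by ring
    have e2 : h * (Complex.sinh w * (-Complex.I * ((af w - (af w)⁻¹) / 2))) =
        -Complex.I * ((af w * (Complex.sinh w * h) - (af w)⁻¹ * (Complex.sinh w * h)) / 2) := by
      ring
    rw [e1, e2]
    exact e _ _

theorem Tm_eq_zero {a k : ℂ} (ha : 1 < Complex.normSq a) (h : Tm a k = 0) : k = 0 := by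
  by_contra hk
  have h1 : a * k = - conj (a⁻¹ * k) := by
    have : a * k + conj (a⁻¹ * k) = 0 := by
      have h2 : (a * k + conj (a⁻¹ * k)) / 2 = 0 := h
      simpa using h2
    exact eq_neg_of_add_eq_zero_left this
  have h2 := congrArg Complex.normSq h1
  rw [Complex.normSq_neg, Complex.normSq_conj, map_mul, map_mul, map_inv₀] at h2
  have hk0 : 0 < Complex.normSq k := Complex.normSq_pos.2 hk
  have h3 := mul_right_cancel₀ hk0.ne' h2
  have h4 : (Complex.normSq a)⁻¹ < 1 := inv_lt_one_of_one_lt₀ ha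
  linarith

theorem exists_equiv {w : ℂ} (hw : w ∈ S) : ∃ D : ℂ ≃L[ℝ] ℂ,
    HasStrictFDerivAt Zc (D : ℂ →L[ℝ] ℂ) w ∧ ∀ h, D h = Tm (af w) (Complex.sinh w * h) := by
  obtain ⟨D, hD, hD'⟩ := exists_deriv hw
  have hinj : Injective (D : ℂ →ₗ[ℝ] ℂ) := by
    rw [← LinearMap.ker_eq_bot, LinearMap.ker_eq_bot']
    intro m hm
    have h1 : Tm (af w) (Complex.sinh w * m) = 0 := by rw [← hD']; exact hm
    have h2 := Tm_eq_zero (af_gt hw) h1
    rcases mul_eq_zero.1 h2 with h | h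
    · exact absurd h (sinh_ne hw)
    · exact h
  let e : ℂ ≃L[ℝ] ℂ := (LinearEquiv.ofInjectiveEndo (D : ℂ →ₗ[ℝ] ℂ) hinj).toContinuousLinearEquiv
  have he : (e : ℂ →L[ℝ] ℂ) = D := by
    ext
    rfl
  refine ⟨e, by rw [he]; exact hD, fun h => ?_⟩
  rw [← hD' h]
  rfl

theorem Tm_surj {w : ℂ} (hw : w ∈ S) (v : ℂ) : ∃ k, Tm (af w) k = v := by
  obtain ⟨D, -, hD⟩ := exists_equiv hw
  refine ⟨Complex.sinh w * D.symm v, ?_⟩
  rw [← hD]
  simp

theorem isOpenMap_Zc : IsOpenMap (S.domRestrict Zc) := by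
  rw [isOpenMap_iff_nhds_le]
  intro x
  obtain ⟨D, hD, -⟩ := exists_equiv x.2
  have h1 := hD.map_nhds_eq_of_equiv
  have h2 : map (Subtype.val : S → ℂ) (𝓝 x) = 𝓝 (x : ℂ) :=
    map_nhds_subtype_coe_eq_nhds x.2 (isOpen_S.mem_nhds x.2)
  have h3 : S.domRestrict Zc = Zc ∘ Subtype.val := rfl
  rw [h3, ← Filter.map_map, h2, h1]
  rfl

/-- relation to the function `hf` -/
theorem key_rel {w : ℂ} (hw : w ∈ S) : hf (Xc w ^ 2) (rho w) = Yc w ∧
    Xc w ^ 2 * rho w < (rho w + 2) ^ 2 := by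
  have hr := rho_pos hw
  obtain ⟨hp, hq1, hq2⟩ := hw
  have hsinh : 0 < Real.sinh w.re := Real.sinh_pos_iff.2 hp
  have hsin : 0 < Real.sin w.im := Real.sin_pos_of_pos_of_lt_pi hq1 hq2
  have hX : Xc w ^ 2 = Vc w ^ 2 * (rho w + 2) ^ 2 / rho w ^ 2 := by
    rw [Xc, Vc]
    field_simp
  have hUV : Uc w ^ 2 + Vc w ^ 2 = rho w := by
    rw [← normSq_cosh, Complex.normSq_apply, cosh_re, cosh_im]
    ring
  have hU : 0 < Uc w := mul_pos hsinh hsin
  have hB : Bf (Xc w ^ 2) (rho w) = (Real.cosh w.re ^ 2 - Real.cos w.im ^ 2) ^ 2 := by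
    have h1 : Bf (Xc w ^ 2) (rho w) = (rho w + 1) ^ 2 - 4 * Vc w ^ 2 := by
      rw [Bf, hX]
      have : rho w + 2 ≠ 0 := by positivity
      field_simp
    rw [h1, rho, Vc, mul_pow, Real.cosh_sq]
    ring
  have hc : 0 ≤ Real.cosh w.re ^ 2 - Real.cos w.im ^ 2 := by
    have h1 := Real.cosh_sq w.re
    have h2 := Real.cos_sq_le_one w.im
    nlinarith [sq_nonneg (Real.sinh w.re)]
  have hv : vf (Xc w ^ 2) (rho w) = Real.cosh (2 * w.re) := by
    rw [vf, hB, Real.sqrt_sq hc, Real.cosh_two_mul, rho]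
    ring
  have hs : sf (Xc w ^ 2) (rho w) = Real.sinh (2 * w.re) := by
    rw [sf, hv, Real.cosh_sq, add_sub_cancel_right, Real.sqrt_sq]
    exact Real.sinh_nonneg_iff.2 (by linarith)
  constructor
  · rw [hf, hs, Real.arsinh_sinh, Real.sinh_two_mul, Yc]
    ring
  · rw [hX]
    have h1 : Vc w ^ 2 < rho w := by nlinarith
    have h2 : Vc w ^ 2 * (rho w + 2) ^ 2 / rho w ^ 2 * rho w =
        Vc w ^ 2 / rho w * (rho w + 2) ^ 2 := by
      field_simp
    rw [h2]
    have h3 : Vc w ^ 2 / rho w < 1 := (div_lt_one hr).2 h1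
    have h4 : 0 < (rho w + 2) ^ 2 := by positivity
    nlinarith

theorem injOn_Zc : InjOn Zc S := by
  intro w1 h1 w2 h2 h
  have hX : Xc w1 = Xc w2 := congrArg Complex.re h
  have hY : Yc w1 = Yc w2 := congrArg Complex.im h
  obtain ⟨k1, l1⟩ := key_rel h1
  obtain ⟨k2, l2⟩ := key_rel h2
  have hr1 := rho_pos h1
  have hr2 := rho_pos h2
  have hrho : rho w1 = rho w2 := by
    rw [← hX] at k2 l2
    rcases lt_trichotomy (rho w1) (rho w2) with hlt | heq | hgt
    · have := h_mono hr1 hlt (sq_nonneg (Xc w1)) l1 l2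
      rw [k1, k2, hY] at this
      exact absurd this (lt_irrefl _)
    · exact heq
    · have := h_mono hr2 hgt (sq_nonneg (Xc w1)) l2 l1
      rw [k1, k2, hY] at this
      exact absurd this (lt_irrefl _)
  have hV : Vc w1 = Vc w2 := by
    have e1 : Xc w1 = Vc w1 * (1 + 2 / rho w1) := rfl
    have e2 : Xc w2 = Vc w2 * (1 + 2 / rho w2) := rfl
    rw [e1, e2, hrho] at hX
    have : 1 + 2 / rho w2 ≠ 0 := by positivity
    exact mul_right_cancel₀ this hX
  -- `c = cosh² p`, `d = cos² q`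
  have hc1 := Real.cosh_sq w1.re
  have hc2 := Real.cosh_sq w2.re
  have hs1 : 0 < Real.sinh w1.re := Real.sinh_pos_iff.2 h1.1
  have hs2 : 0 < Real.sinh w2.re := Real.sinh_pos_iff.2 h2.1
  have hd2 := Real.cos_sq_le_one w2.im
  have hprod : Real.cosh w1.re ^ 2 * Real.cos w1.im ^ 2 =
      Real.cosh w2.re ^ 2 * Real.cos w2.im ^ 2 := by
    have := congrArg (fun x => x ^ 2) hV
    simp only [Vc, mul_pow] at this
    exact this
  have hsum : Real.cosh w1.re ^ 2 + Real.cos w1.im ^ 2 =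
      Real.cosh w2.re ^ 2 + Real.cos w2.im ^ 2 := by
    rw [rho, rho] at hrho
    linarith
  have hcc : Real.cosh w1.re ^ 2 = Real.cosh w2.re ^ 2 := by
    have : (Real.cosh w1.re ^ 2 - Real.cosh w2.re ^ 2) *
        (Real.cosh w1.re ^ 2 - Real.cos w2.im ^ 2) = 0 := by
      linear_combination (-Real.cosh w1.re ^ 2) * hsum * (-1) - hprod
    rcases mul_eq_zero.1 this with h | h
    · linarith
    · exfalso
      nlinarith
  have hcosh : Real.cosh w1.re = Real.cosh w2.re :=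
    (pow_left_inj₀ (Real.cosh_pos _).le (Real.cosh_pos _).le two_ne_zero).1 hcc
  have hre : w1.re = w2.re :=
    Real.cosh_injOn (mem_Ici.2 h1.1.le) (mem_Ici.2 h2.1.le) hcosh
  have hcos : Real.cos w1.im = Real.cos w2.im := by
    rw [Vc, Vc, hcosh] at hV
    exact mul_left_cancel₀ (Real.cosh_pos _).ne' hV
  have him : w1.im = w2.im := Real.injOn_cos ⟨h1.2.1.le, h1.2.2.le⟩ ⟨h2.2.1.le, h2.2.2.le⟩ hcos
  exact Complex.ext hre him

end

end Pool.Agent.R745.MG
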