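import Pool.Agent.R745.MG.Mono

/-!
# The parametrization of the minimal graph

`Z(p + iq) = (cosh p cos q (1 + 2/ρ), 2 (p - sinh p cosh p / ρ))`, `ρ = sinh² p + cos² q`, on the half
strip `p > 0`, `0 < q < π`; height `sinh p sin q`.
-/

set_option autoImplicit false
open Set Function
open scoped ContDiff Topology

namespace Pool.Agent.R745.MG

noncomputable section

open Real in
/-- `|cosh (p + iq)|²` -/
def rho (w : ℂ) : ℝ := Real.sinh w.re ^ 2 + Real.cos w.im ^ 2

/-- first coordinate -/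
def Xc (w : ℂ) : ℝ := Real.cosh w.re * Real.cos w.im * (1 + 2 / rho w)
/-- second coordinate -/
def Yc (w : ℂ) : ℝ := 2 * (w.re - Real.sinh w.re * Real.cosh w.re / rho w)
/-- horizontal position -/
def Zc (w : ℂ) : ℂ := ⟨Xc w, Yc w⟩
/-- height -/
def Uc (w : ℂ) : ℝ := Real.sinh w.re * Real.sin w.im
/-- conjugate height -/
def Vc (w : ℂ) : ℝ := Real.cosh w.re * Real.cos w.im

/-- the open half strip -/
def S : Set ℂ := {w | 0 < w.re ∧ 0 < w.im ∧ w.im < Real.pi}

theorem isOpen_S : IsOpen S :=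
  (isOpen_lt continuous_const Complex.continuous_re).inter
    ((isOpen_lt continuous_const Complex.continuous_im).inter
      (isOpen_lt Complex.continuous_im continuous_const))

theorem cosh_re (w : ℂ) : (Complex.cosh w).re = Vc w := by
  have h : w = (w.re : ℂ) + w.im * Complex.I := (Complex.re_add_im w).symm
  conv_lhs => rw [h]
  rw [Complex.cosh_add, Complex.cosh_mul_I, Complex.sinh_mul_I]
  simp [Vc, ← Complex.ofReal_cosh, ← Complex.ofReal_sinh, ← Complex.ofReal_cos,
    ← Complex.ofReal_sin]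

theorem cosh_im (w : ℂ) : (Complex.cosh w).im = Uc w := by
  have h : w = (w.re : ℂ) + w.im * Complex.I := (Complex.re_add_im w).symm
  conv_lhs => rw [h]
  rw [Complex.cosh_add, Complex.cosh_mul_I, Complex.sinh_mul_I]
  simp [Uc, ← Complex.ofReal_cosh, ← Complex.ofReal_sinh, ← Complex.ofReal_cos,
    ← Complex.ofReal_sin]

theorem sinh_re (w : ℂ) : (Complex.sinh w).re = Real.sinh w.re * Real.cos w.im := by
  have h : w = (w.re : ℂ) + w.im * Complex.I := (Complex.re_add_im w).symm
  conv_lhs => rw [h]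
  rw [Complex.sinh_add, Complex.cosh_mul_I, Complex.sinh_mul_I]
  simp [← Complex.ofReal_cosh, ← Complex.ofReal_sinh, ← Complex.ofReal_cos,
    ← Complex.ofReal_sin]

theorem sinh_im (w : ℂ) : (Complex.sinh w).im = Real.cosh w.re * Real.sin w.im := by
  have h : w = (w.re : ℂ) + w.im * Complex.I := (Complex.re_add_im w).symm
  conv_lhs => rw [h]
  rw [Complex.sinh_add, Complex.cosh_mul_I, Complex.sinh_mul_I]
  simp [← Complex.ofReal_cosh, ← Complex.ofReal_sinh, ← Complex.ofReal_cos,
    ← Complex.ofReal_sin]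

theorem normSq_cosh (w : ℂ) : Complex.normSq (Complex.cosh w) = rho w := by
  rw [Complex.normSq_apply, cosh_re, cosh_im, Vc, Uc, rho]
  have h1 := Real.cosh_sq w.re
  have h2 := Real.sin_sq_add_cos_sq w.im
  linear_combination (Real.cos w.im ^ 2) * h1 + (Real.sinh w.re ^ 2) * h2

theorem rho_pos {w : ℂ} (hw : w ∈ S) : 0 < rho w := by
  have := Real.sinh_pos_iff.2 hw.1
  rw [rho]
  positivity

theorem cosh_ne {w : ℂ} (hw : w ∈ S) : Complex.cosh w ≠ 0 := by
  rw [← Complex.normSq_pos, normSq_cosh]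
  exact rho_pos hw

/-- first holomorphic function -/
def f1 (w : ℂ) : ℂ := Complex.cosh w + 2 / Complex.cosh w
/-- second holomorphic function -/
def f2 (w : ℂ) : ℂ := 2 * (w - Complex.sinh w / Complex.cosh w)

theorem f1_re (w : ℂ) : (f1 w).re = Xc w := by
  rw [f1, Complex.add_re, Complex.div_re, normSq_cosh, cosh_re, Xc, Vc]
  simp
  ring

theorem f2_re (w : ℂ) : (f2 w).re = Yc w := by
  have : (Complex.sinh w / Complex.cosh w).re = Real.sinh w.re * Real.cosh w.re / rho w := by
    rw [Complex.div_re, normSq_cosh, cosh_re, cosh_im, sinh_re, sinh_im, Vc, Uc]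
    rw [← add_div]
    congr 1
    have h2 := Real.sin_sq_add_cos_sq w.im
    linear_combination (Real.sinh w.re * Real.cosh w.re) * h2
  rw [f2, Complex.mul_re, Complex.sub_re, this]
  simp [Yc]

/-- the dilatation factor -/
def af (w : ℂ) : ℂ := (Complex.sinh w + Complex.I) / (Complex.sinh w - Complex.I)

theorem sinh_im_pos {w : ℂ} (hw : w ∈ S) : 0 < (Complex.sinh w).im := by
  rw [sinh_im]
  exact mul_pos (Real.cosh_pos _) (Real.sin_pos_of_pos_of_lt_pi hw.2.1 hw.2.2)

theorem sinh_sub_ne {w : ℂ} (hw : w ∈ S) : Complex.sinh w - Complex.I ≠ 0 := by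
  intro h
  have h1 := Complex.cosh_sq w
  rw [sub_eq_zero.1 h] at h1
  have : Complex.cosh w ^ 2 = 0 := by
    rw [h1, Complex.I_sq]
    ring
  exact cosh_ne hw (pow_eq_zero_iff two_ne_zero |>.1 this)

theorem sinh_add_ne {w : ℂ} (hw : w ∈ S) : Complex.sinh w + Complex.I ≠ 0 := by
  intro h
  have h1 := Complex.cosh_sq w
  rw [eq_neg_of_add_eq_zero_left h] at h1
  have : Complex.cosh w ^ 2 = 0 := by
    rw [h1, neg_sq, Complex.I_sq]
    ring
  exact cosh_ne hw (pow_eq_zero_iff two_ne_zero |>.1 this)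

theorem af_ne {w : ℂ} (hw : w ∈ S) : af w ≠ 0 := div_ne_zero (sinh_add_ne hw) (sinh_sub_ne hw)

theorem af_gt {w : ℂ} (hw : w ∈ S) : 1 < Complex.normSq (af w) := by
  rw [af, Complex.normSq_div, lt_div_iff₀ (Complex.normSq_pos.2 (sinh_sub_ne hw)), one_mul]
  rw [Complex.normSq_apply, Complex.normSq_apply]
  simp
  nlinarith [sinh_im_pos hw]

theorem sinh_ne {w : ℂ} (hw : w ∈ S) : Complex.sinh w ≠ 0 := by
  intro h
  have := sinh_im_pos hw
  rw [h] at this
  simp at this

theorem hasStrictDerivAt_f1 {w : ℂ} (hw : w ∈ S) :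
    HasStrictDerivAt f1 (Complex.sinh w * ((af w + (af w)⁻¹) / 2)) w := by
  have h' : HasStrictDerivAt f1 (Complex.sinh w + (0 * Complex.cosh w - 2 * Complex.sinh w) /
      Complex.cosh w ^ 2) w :=
    (Complex.hasStrictDerivAt_cosh w).add
      ((hasStrictDerivAt_const w (2 : ℂ)).div (Complex.hasStrictDerivAt_cosh w) (cosh_ne hw))
  convert h' using 1
  have h1 := sinh_sub_ne hw
  have h2 := sinh_add_ne hw
  have h3 : Complex.cosh w ^ 2 = (Complex.sinh w - Complex.I) * (Complex.sinh w + Complex.I) := by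
    rw [Complex.cosh_sq]
    linear_combination Complex.I_sq
  rw [h3, af]
  field_simp
  linear_combination (4 * Complex.sinh w) * Complex.I_sq

theorem hasStrictDerivAt_f2 {w : ℂ} (hw : w ∈ S) :
    HasStrictDerivAt f2 (Complex.sinh w * (-Complex.I * ((af w - (af w)⁻¹) / 2))) w := by
  have h : HasStrictDerivAt f2 (2 * (1 - (Complex.cosh w * Complex.cosh w -
      Complex.sinh w * Complex.sinh w) / Complex.cosh w ^ 2)) w :=
    ((hasStrictDerivAt_id w).sub ((Complex.hasStrictDerivAt_sinh w).div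
      (Complex.hasStrictDerivAt_cosh w) (cosh_ne hw))).const_mul 2
  convert h using 1
  have h1 := sinh_sub_ne hw
  have h2 := sinh_add_ne hw
  have h3 : Complex.cosh w ^ 2 = (Complex.sinh w - Complex.I) * (Complex.sinh w + Complex.I) := by
    rw [Complex.cosh_sq]
    linear_combination Complex.I_sq
  have h4 : Complex.cosh w * Complex.cosh w - Complex.sinh w * Complex.sinh w = 1 := by
    rw [← Complex.cosh_sq_sub_sinh_sq w]
    ring
  rw [h4, h3, af]
  field_simp
  linear_combination (4 - 4 * Complex.sinh w ^ 2) * Complex.I_sq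

end

end Pool.Agent.R745.MG
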