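import Mathlib

/-!
# A monotonicity lemma for the horizontal coordinate curves of the minimal surface
-/

set_option autoImplicit false
open Real Set

namespace Pool.Agent.R745.MG

noncomputable section

def Bf (κ ρ : ℝ) : ℝ := (ρ + 1) ^ 2 - 4 * κ * ρ ^ 2 / (ρ + 2) ^ 2
def vf (κ ρ : ℝ) : ℝ := ρ + √(Bf κ ρ)
def sf (κ ρ : ℝ) : ℝ := √(vf κ ρ ^ 2 - 1)
def hf (κ ρ : ℝ) : ℝ := arsinh (sf κ ρ) - sf κ ρ / ρ

variable {κ ρ : ℝ}

theorem Bf_sub (hρ : 0 < ρ) : Bf κ ρ - (ρ - 1) ^ 2 = 4 * ρ * (((ρ + 2) ^ 2 - κ * ρ) / (ρ + 2) ^ 2) := by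
  have : ρ + 2 ≠ 0 := by positivity
  rw [Bf]
  field_simp
  ring

theorem Bf_gt (hρ : 0 < ρ) (h : κ * ρ < (ρ + 2) ^ 2) : (ρ - 1) ^ 2 < Bf κ ρ := by
  have h1 := Bf_sub (κ := κ) hρ
  have h2 : 0 < 4 * ρ * (((ρ + 2) ^ 2 - κ * ρ) / (ρ + 2) ^ 2) := by
    have : 0 < (ρ + 2) ^ 2 - κ * ρ := by linarith
    positivity
  linarith

theorem Bf_pos (hρ : 0 < ρ) (h : κ * ρ < (ρ + 2) ^ 2) : 0 < Bf κ ρ :=
  lt_of_le_of_lt (sq_nonneg _) (Bf_gt hρ h)

theorem vf_gt (hρ : 0 < ρ) (h : κ * ρ < (ρ + 2) ^ 2) : 1 < vf κ ρ := by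
  have h1 : √((ρ - 1) ^ 2) < √(Bf κ ρ) := Real.sqrt_lt_sqrt (sq_nonneg _) (Bf_gt hρ h)
  rw [Real.sqrt_sq_eq_abs] at h1
  have h2 := neg_abs_le (ρ - 1)
  rw [vf]
  linarith

theorem hasDerivAt_Bf (hρ : 0 < ρ) :
    HasDerivAt (Bf κ) (2 * (ρ + 1) - 16 * κ * ρ / (ρ + 2) ^ 3) ρ := by
  have hne : (ρ + 2) ^ 2 ≠ 0 := by positivity
  have h1 : HasDerivAt (fun x : ℝ => (x + 1) ^ 2) (2 * (ρ + 1)) ρ := by
    have := ((hasDerivAt_id ρ).add_const 1).pow 2
    refine this.congr_deriv ?_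
    simp
  have h2 : HasDerivAt (fun x : ℝ => 4 * κ * x ^ 2) (8 * κ * ρ) ρ := by
    have := ((hasDerivAt_id ρ).pow 2).const_mul (4 * κ)
    refine this.congr_deriv ?_
    simp
    ring
  have h3 : HasDerivAt (fun x : ℝ => (x + 2) ^ 2) (2 * (ρ + 2)) ρ := by
    have := ((hasDerivAt_id ρ).add_const 2).pow 2
    refine this.congr_deriv ?_
    simp
  have h4 := h1.sub (h2.div h3 hne)
  refine h4.congr_deriv ?_
  have : ρ + 2 ≠ 0 := by positivity
  field_simp
  ring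

theorem hasDerivAt_hf (hρ : 0 < ρ) (h : κ * ρ < (ρ + 2) ^ 2) (hκ : 0 ≤ κ) :
    ∃ d, 0 < d ∧ HasDerivAt (hf κ) d ρ := by
  have hB := Bf_pos hρ h
  have hv := vf_gt hρ h
  set E := √(Bf κ ρ) with hE
  have hE0 : 0 < E := Real.sqrt_pos.2 hB
  have hE2 : E ^ 2 = Bf κ ρ := Real.sq_sqrt hB.le
  set v := vf κ ρ with hvd
  have hvE : v = ρ + E := rfl
  have hv1 : 0 < v ^ 2 - 1 := by nlinarith
  set σ := sf κ ρ with hσd
  have hσ0 : 0 < σ := Real.sqrt_pos.2 hv1
  have hσ2 : σ ^ 2 = v ^ 2 - 1 := Real.sq_sqrt hv1.le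
  have d1 : HasDerivAt (fun x => √(Bf κ x))
      ((2 * (ρ + 1) - 16 * κ * ρ / (ρ + 2) ^ 3) / (2 * E)) ρ := (hasDerivAt_Bf hρ).sqrt hB.ne'
  set v' := 1 + (2 * (ρ + 1) - 16 * κ * ρ / (ρ + 2) ^ 3) / (2 * E) with hv'
  have d2 : HasDerivAt (vf κ) v' ρ := (hasDerivAt_id ρ).add d1
  have d3 : HasDerivAt (sf κ) (v * v' / σ) ρ := by
    have e1 : HasDerivAt (fun x => vf κ x ^ 2 - 1) (2 * v * v') ρ := by
      have := (d2.pow 2).sub_const 1
      refine this.congr_deriv ?_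
      simp [hvd]
    have := e1.sqrt hv1.ne'
    refine this.congr_deriv ?_
    show 2 * v * v' / (2 * σ) = v * v' / σ
    field_simp
  have d4 : HasDerivAt (fun x => arsinh (sf κ x)) (v' / σ) ρ := by
    have := d3.arsinh
    refine this.congr_deriv ?_
    have : √(1 + sf κ ρ ^ 2) = v := by
      have : 1 + sf κ ρ ^ 2 = v ^ 2 := by
        rw [← hσd, hσ2]
        ring
      rw [this, Real.sqrt_sq (by linarith)]
    rw [this]
    have : v ≠ 0 := by positivity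
    simp
    field_simp
  have d5 := d4.sub (d3.div (hasDerivAt_id ρ) hρ.ne')
  refine ⟨_, ?_, d5⟩
  have key : v' / σ - (v * v' / σ * id ρ - sf κ ρ * 1) / id ρ ^ 2 =
      (ρ ^ 2 + ρ * E + ρ - 4 * κ * ρ ^ 3 / (ρ + 2) ^ 3) / (ρ ^ 2 * σ) := by
    simp only [id]
    rw [← hσd]
    have h2 : ρ + 2 ≠ 0 := by positivity
    rw [eq_div_iff (by positivity)]
    have h3 : (v' / σ - (v * v' / σ * ρ - σ * 1) / ρ ^ 2) * (ρ ^ 2 * σ) =
        v' * ρ ^ 2 - v * v' * ρ + σ ^ 2 := by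
      field_simp
      ring
    rw [h3, hσ2, hvE]
    have h4 : E * v' = E + (ρ + 1) - 8 * κ * ρ / (ρ + 2) ^ 3 := by
      rw [hv']
      field_simp
      ring
    have h5 : v' * ρ ^ 2 - (ρ + E) * v' * ρ + ((ρ + E) ^ 2 - 1) =
        - ρ * (E * v') + ρ ^ 2 + 2 * ρ * E + E ^ 2 - 1 := by ring
    rw [h5, h4, hE2, Bf]
    field_simp
    ring
  rw [key]
  apply div_pos _ (by positivity)
  have h6 : 4 * κ * ρ ^ 3 / (ρ + 2) ^ 3 ≤ 4 * ρ ^ 2 / (ρ + 2) := by
    rw [div_le_div_iff₀ (by positivity) (by positivity)]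
    have : κ * ρ * (4 * ρ ^ 2 * (ρ + 2)) ≤ (ρ + 2) ^ 2 * (4 * ρ ^ 2 * (ρ + 2)) :=
      mul_le_mul_of_nonneg_right h.le (by positivity)
    nlinarith
  have h7 : 4 * ρ ^ 2 / (ρ + 2) ≤ ρ ^ 2 + ρ := by
    rw [div_le_iff₀ (by positivity)]
    nlinarith [sq_nonneg (ρ - 1), mul_pos hρ hρ, mul_pos (mul_pos hρ hρ) hρ,
      mul_nonneg hρ.le (sq_nonneg (ρ - 1))]
  have h8 : 0 < ρ * E := by positivity
  linarith

theorem continuousOn_hf : ContinuousOn (hf κ) (Ioi 0) := by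
  have hne : ∀ x ∈ Ioi (0 : ℝ), (x + 2) ^ 2 ≠ 0 := by
    intro x hx
    have : (0 : ℝ) < x := hx
    positivity
  have h1 : ContinuousOn (Bf κ) (Ioi 0) := by
    unfold Bf
    exact (by fun_prop : Continuous fun x : ℝ => (x + 1) ^ 2).continuousOn.sub
      (ContinuousOn.div (by fun_prop) (by fun_prop) hne)
  have h2 : ContinuousOn (vf κ) (Ioi 0) := continuousOn_id.add h1.sqrt
  have h3 : ContinuousOn (sf κ) (Ioi 0) := ((h2.pow 2).sub continuousOn_const).sqrt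
  exact h3.arsinh.sub (h3.div continuousOn_id fun x hx => (ne_of_gt hx))

theorem hf_lt {a b : ℝ} (ha : 0 < a) (hab : a < b) (hκ : 0 ≤ κ)
    (h : ∀ x ∈ Ioo a b, κ * x < (x + 2) ^ 2) : hf κ a < hf κ b := by
  have hm : StrictMonoOn (hf κ) (Icc a b) := by
    apply strictMonoOn_of_deriv_pos (convex_Icc a b)
    · exact continuousOn_hf.mono fun x hx => lt_of_lt_of_le ha hx.1
    · intro x hx
      rw [interior_Icc] at hx
      obtain ⟨d, hd, hd'⟩ := hasDerivAt_hf (ha.trans hx.1) (h x hx) hκ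
      rw [hd'.deriv]
      exact hd
  exact hm (left_mem_Icc.2 hab.le) (right_mem_Icc.2 hab.le) hab

/-- `p - tanh p` is monotone -/
theorem sub_tanh_mono : Monotone fun p : ℝ => p - sinh p / cosh p := by
  have hd : ∀ p : ℝ, HasDerivAt (fun p : ℝ => p - sinh p / cosh p)
      (1 - (cosh p * cosh p - sinh p * sinh p) / cosh p ^ 2) p := fun p =>
    (hasDerivAt_id p).sub ((Real.hasDerivAt_sinh p).div (Real.hasDerivAt_cosh p)
      (Real.cosh_pos p).ne')
  apply monotone_of_deriv_nonneg (fun p => (hd p).differentiableAt)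
  intro p
  rw [(hd p).deriv, sub_nonneg, div_le_one (by positivity)]
  nlinarith [sq_nonneg (sinh p)]

/-- boundary values -/
theorem hf_bdry {p : ℝ} (hp : 0 ≤ p) (h : κ * cosh p ^ 2 = (cosh p ^ 2 + 2) ^ 2) :
    hf κ (cosh p ^ 2) = 2 * (p - sinh p / cosh p) := by
  have hc : 0 < cosh p ^ 2 := by positivity
  have hB : Bf κ (cosh p ^ 2) = (sinh p ^ 2) ^ 2 := by
    have := Bf_sub (κ := κ) hc
    rw [h, sub_self, zero_div, mul_zero, sub_eq_zero] at this
    rw [this, Real.cosh_sq p]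
    ring
  have hv : vf κ (cosh p ^ 2) = cosh (2 * p) := by
    rw [vf, hB, Real.sqrt_sq (by positivity), Real.cosh_two_mul]
  have hs : sf κ (cosh p ^ 2) = sinh (2 * p) := by
    rw [sf, hv, Real.cosh_sq, add_sub_cancel_right, Real.sqrt_sq]
    exact Real.sinh_nonneg_iff.2 (by linarith)
  rw [hf, hs, Real.arsinh_sinh, Real.sinh_two_mul]
  have : cosh p ≠ 0 := (Real.cosh_pos p).ne'
  field_simp

theorem hf_bdry_small (hρ : 0 < ρ) (h1 : ρ ≤ 1) (h : κ * ρ = (ρ + 2) ^ 2) : hf κ ρ = 0 := by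
  have hB : Bf κ ρ = (1 - ρ) ^ 2 := by
    have := Bf_sub (κ := κ) hρ
    rw [h, sub_self, zero_div, mul_zero, sub_eq_zero] at this
    rw [this]
    ring
  have hv : vf κ ρ = 1 := by
    rw [vf, hB, Real.sqrt_sq (by linarith)]
    ring
  have hs : sf κ ρ = 0 := by
    rw [sf, hv]
    norm_num
  rw [hf, hs]
  simp

theorem bdry_param {x : ℝ} (hx : 1 ≤ x) : ∃ p, 0 ≤ p ∧ cosh p ^ 2 = x := by
  obtain ⟨p, hp, hp'⟩ := Real.cosh_surjOn (Real.one_le_sqrt.2 hx : √x ∈ Ici 1)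
  exact ⟨p, hp, by rw [hp', Real.sq_sqrt (by linarith)]⟩

theorem hf_bdry_le {a b : ℝ} (ha : 0 < a) (hab : a ≤ b) (h1 : κ * a = (a + 2) ^ 2)
    (h2 : κ * b = (b + 2) ^ 2) : hf κ a ≤ hf κ b := by
  rcases le_total b 1 with hb | hb
  · rw [hf_bdry_small (by linarith) hb h2, hf_bdry_small ha (by linarith) h1]
  · obtain ⟨p, hp, rfl⟩ := bdry_param hb
    rw [hf_bdry hp h2]
    rcases le_total a 1 with ha1 | ha1
    · rw [hf_bdry_small ha ha1 h1]
      have := sub_tanh_mono hp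
      simp at this
      simpa using this
    · obtain ⟨r, hr, rfl⟩ := bdry_param ha1
      rw [hf_bdry hr h1]
      have h3 : r ≤ p := by
        have h4 : cosh r ≤ cosh p :=
          (pow_le_pow_iff_left₀ (Real.cosh_pos r).le (Real.cosh_pos p).le two_ne_zero).1 hab
        have := (Real.cosh_le_cosh).1 h4
        rwa [abs_of_nonneg hr, abs_of_nonneg hp] at this
      have := sub_tanh_mono h3
      simp only at this
      linarith

theorem h_mono {a b : ℝ} (ha : 0 < a) (hab : a < b) (hκ : 0 ≤ κ)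
    (h1 : κ * a < (a + 2) ^ 2) (h2 : κ * b < (b + 2) ^ 2) : hf κ a < hf κ b := by
  by_cases hU : ∀ x ∈ Ioo a b, κ * x < (x + 2) ^ 2
  · exact hf_lt ha hab hκ hU
  · push Not at hU
    obtain ⟨m, ⟨hm1, hm2⟩, hm⟩ := hU
    -- roots of `x² - D x + 4`
    have hm0 : 0 < m := ha.trans hm1
    set D := κ - 4 with hD
    have hq : m ^ 2 - D * m + 4 ≤ 0 := by
      rw [hD]
      nlinarith
    have hdisc : 0 ≤ D ^ 2 - 16 := by nlinarith [sq_nonneg (2 * m - D)]
    set s := √(D ^ 2 - 16) with hs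
    have hs0 : 0 ≤ s := Real.sqrt_nonneg _
    have hs2 : s ^ 2 = D ^ 2 - 16 := Real.sq_sqrt hdisc
    have hfac : ∀ x : ℝ, x ^ 2 - D * x + 4 = (x - (D - s) / 2) * (x - (D + s) / 2) := by
      intro x
      linear_combination (1 / 4) * hs2
    set α := (D - s) / 2 with hα
    set β := (D + s) / 2 with hβ
    have hαβ : α ≤ β := by rw [hα, hβ]; linarith
    have ha1 : 0 < (a - α) * (a - β) := by
      rw [← hfac, hD]
      nlinarith
    have hb1 : 0 < (b - α) * (b - β) := by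
      rw [← hfac, hD]
      nlinarith
    have hm3 : (m - α) * (m - β) ≤ 0 := by
      rw [← hfac]
      exact hq
    have hmα : α ≤ m := by
      by_contra hcon
      push Not at hcon
      nlinarith [mul_pos (by linarith : 0 < α - m) (by linarith : 0 < β - m)]
    have hmβ : m ≤ β := by
      by_contra hcon
      push Not at hcon
      nlinarith [mul_pos (by linarith : 0 < m - α) (by linarith : 0 < m - β)]
    have haα : a < α := by
      by_contra hcon
      push Not at hcon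
      nlinarith [mul_nonneg (by linarith : 0 ≤ a - α) (by linarith : 0 ≤ β - a)]
    have hbβ : β < b := by
      by_contra hcon
      push Not at hcon
      nlinarith [mul_nonneg (by linarith : 0 ≤ b - α) (by linarith : 0 ≤ β - b)]
    have hα' : κ * α = (α + 2) ^ 2 := by
      have := hfac α
      rw [sub_self, zero_mul, hD] at this
      linarith
    have hβ' : κ * β = (β + 2) ^ 2 := by
      have := hfac β
      rw [sub_self, mul_zero, hD] at this
      linarith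
    have e1 : hf κ a < hf κ α := by
      apply hf_lt ha haα hκ
      intro x hx
      have : 0 < (x - α) * (x - β) := by
        nlinarith [mul_pos (by linarith [hx.2] : 0 < α - x) (by linarith [hx.2] : 0 < β - x)]
      rw [← hfac, hD] at this
      nlinarith
    have e2 : hf κ β < hf κ b := by
      apply hf_lt (by linarith) hbβ hκ
      intro x hx
      have : 0 < (x - α) * (x - β) := by
        nlinarith [mul_pos (by linarith [hx.1] : 0 < x - α) (by linarith [hx.1] : 0 < x - β)]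
      rw [← hfac, hD] at this
      nlinarith
    have e3 : hf κ α ≤ hf κ β := hf_bdry_le (by linarith) hαβ hα' hβ'
    linarith

end

end Pool.Agent.R745.MG
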