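import Pool.Agent.R745.MG.Inj

/-!
# The minimal graph: smoothness and the minimal surface equation
-/

set_option autoImplicit false
open Set Function Filter
open scoped ContDiff Topology ComplexConjugate

namespace Pool.Agent.R745.MG

noncomputable section

/-- the domain -/
def D : Set ℂ := Zc '' S

theorem continuousOn_Zc : ContinuousOn Zc S := by
  intro w hw
  obtain ⟨L, hL, -⟩ := exists_equiv hw
  exact hL.continuousAt.continuousWithinAt

/-- `Z` as an open partial homeomorphism. -/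
def eZ : OpenPartialHomeomorph ℂ ℂ :=
  OpenPartialHomeomorph.ofContinuousOpenRestrict (injOn_Zc.toPartialEquiv Zc S) continuousOn_Zc
    isOpenMap_Zc isOpen_S

/-- the inverse parametrization -/
def F : ℂ → ℂ := eZ.symm

theorem F_mem {P : ℂ} (hP : P ∈ D) : F P ∈ S := eZ.map_target hP
theorem Zc_F {P : ℂ} (hP : P ∈ D) : Zc (F P) = P := eZ.right_inv hP
theorem F_Zc {w : ℂ} (hw : w ∈ S) : F (Zc w) = w := eZ.left_inv hw
theorem isOpen_D : IsOpen D := eZ.open_target
theorem mem_D {w : ℂ} (hw : w ∈ S) : Zc w ∈ D := mem_image_of_mem _ hw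

theorem contDiffAt_Zc {w : ℂ} (hw : w ∈ S) : ContDiffAt ℝ ∞ Zc w := by
  have h1 : ContDiffAt ℂ ∞ f1 w :=
    Complex.contDiff_cosh.contDiffAt.add
      (contDiffAt_const.div Complex.contDiff_cosh.contDiffAt (cosh_ne hw))
  have h2 : ContDiffAt ℂ ∞ f2 w :=
    contDiffAt_const.mul (contDiffAt_id.sub
      (Complex.contDiff_sinh.contDiffAt.div Complex.contDiff_cosh.contDiffAt (cosh_ne hw)))
  have k1 : ContDiffAt ℝ ∞ (fun w => ((f1 w).re : ℂ)) w :=
    Complex.ofRealCLM.contDiff.contDiffAt.comp w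
      (Complex.reCLM.contDiff.contDiffAt.comp w (h1.restrict_scalars ℝ))
  have k2 : ContDiffAt ℝ ∞ (fun w => ((f2 w).re : ℂ)) w :=
    Complex.ofRealCLM.contDiff.contDiffAt.comp w
      (Complex.reCLM.contDiff.contDiffAt.comp w (h2.restrict_scalars ℝ))
  have k3 : Zc = fun w => ((f1 w).re : ℂ) + ((f2 w).re : ℂ) * Complex.I := by
    funext x
    apply Complex.ext
    · simp [Zc, f1_re]
    · simp [Zc, f2_re]
  rw [k3]
  exact k1.add (k2.mul contDiffAt_const)

theorem contDiffAt_F {P : ℂ} (hP : P ∈ D) : ContDiffAt ℝ ∞ F P := by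
  obtain ⟨L, hL, -⟩ := exists_equiv (F_mem hP)
  exact eZ.contDiffAt_symm (f₀' := L) hP hL.hasFDerivAt (contDiffAt_Zc (F_mem hP))

/-- `Im k₁` etc.: values of a functional on `1` and `i` from its values on the image of `Tm`. -/
theorem Tm_one {a : ℂ} (ha : 1 < Complex.normSq a) :
    Tm a (2 * ((Complex.normSq a : ℂ) * conj a - a) / ((Complex.normSq a : ℂ) ^ 2 - 1)) = 1 := by
  have h0 : a ≠ 0 := by
    intro h
    rw [h] at ha
    simp at ha
    linarith
  have hN : ((Complex.normSq a : ℂ) ^ 2 - 1) ≠ 0 := by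
    have : (Complex.normSq a) ^ 2 - 1 ≠ 0 := by nlinarith
    exact_mod_cast this
  have hc : conj a ≠ 0 := by simpa using h0
  have hm : a * conj a = (Complex.normSq a : ℂ) := Complex.mul_conj a
  rw [Tm]
  simp only [map_mul, map_div₀, map_sub, map_pow, map_one, Complex.conj_ofReal, map_inv₀,
    Complex.conj_conj, map_ofNat]
  rw [← hm] at hN ⊢
  obtain ⟨Q, hQ⟩ : ∃ Q, Q = (a * conj a) ^ 2 - 1 := ⟨_, rfl⟩
  rw [← hQ] at hN ⊢
  field_simp
  rw [hQ]
  ring

theorem Tm_I {a : ℂ} (ha : 1 < Complex.normSq a) :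
    Tm a (2 * Complex.I * ((Complex.normSq a : ℂ) * conj a + a) /
      ((Complex.normSq a : ℂ) ^ 2 - 1)) = Complex.I := by
  have h0 : a ≠ 0 := by
    intro h
    rw [h] at ha
    simp at ha
    linarith
  have hN : ((Complex.normSq a : ℂ) ^ 2 - 1) ≠ 0 := by
    have : (Complex.normSq a) ^ 2 - 1 ≠ 0 := by nlinarith
    exact_mod_cast this
  have hc : conj a ≠ 0 := by simpa using h0
  have hm : a * conj a = (Complex.normSq a : ℂ) := Complex.mul_conj a
  rw [Tm]
  simp only [map_mul, map_div₀, map_sub, map_add, map_pow, map_one, Complex.conj_ofReal, map_inv₀,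
    Complex.conj_conj, map_ofNat, Complex.conj_I]
  rw [← hm] at hN ⊢
  obtain ⟨Q, hQ⟩ : ∃ Q, Q = (a * conj a) ^ 2 - 1 := ⟨_, rfl⟩
  rw [← hQ] at hN ⊢
  field_simp
  rw [hQ]
  ring

theorem k_one (a : ℂ) : (2 * ((Complex.normSq a : ℂ) * conj a - a) /
      ((Complex.normSq a : ℂ) ^ 2 - 1)) =
    (((2 * (Complex.normSq a - 1) * a.re / (Complex.normSq a ^ 2 - 1) : ℝ)) : ℂ) +
      ((-2 * (Complex.normSq a + 1) * a.im / (Complex.normSq a ^ 2 - 1) : ℝ) : ℂ) * Complex.I := by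
  set N := Complex.normSq a
  have h : 2 * ((N : ℂ) * conj a - a) = ((2 * (N - 1) * a.re : ℝ) : ℂ) +
      ((-2 * (N + 1) * a.im : ℝ) : ℂ) * Complex.I := by
    apply Complex.ext <;> simp <;> ring
  rw [h]
  push_cast
  ring

theorem k_I (a : ℂ) : (2 * Complex.I * ((Complex.normSq a : ℂ) * conj a + a) /
      ((Complex.normSq a : ℂ) ^ 2 - 1)) =
    (((2 * (Complex.normSq a - 1) * a.im / (Complex.normSq a ^ 2 - 1) : ℝ)) : ℂ) +
      ((2 * (Complex.normSq a + 1) * a.re / (Complex.normSq a ^ 2 - 1) : ℝ) : ℂ) * Complex.I := by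
  set N := Complex.normSq a
  have h : 2 * Complex.I * ((N : ℂ) * conj a + a) = ((2 * (N - 1) * a.im : ℝ) : ℂ) +
      ((2 * (N + 1) * a.re : ℝ) : ℂ) * Complex.I := by
    apply Complex.ext <;> simp <;> ring
  rw [h]
  push_cast
  ring

/-- derivative in the direction `1` -/
def dx (f : ℂ → ℝ) (z : ℂ) : ℝ := fderiv ℝ f z 1
/-- derivative in the direction `i` -/
def dy (f : ℂ → ℝ) (z : ℂ) : ℝ := fderiv ℝ f z Complex.I

theorem fderiv_comp_F {w : ℂ} (hw : w ∈ S) {g : ℂ → ℂ} (hg : HasDerivAt g (Complex.sinh w) w)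
    (hgd : ContDiffAt ℝ ∞ g w) (P : ℂ →L[ℝ] ℝ) (k : ℂ) :
    fderiv ℝ (fun z => P (g (F z))) (Zc w) (Tm (af w) k) = P k := by
  obtain ⟨L, hL, hL'⟩ := exists_equiv hw
  have hd : DifferentiableAt ℝ (fun z => P (g (F z))) (Zc w) := by
    have h1 : DifferentiableAt ℝ F (Zc w) := (contDiffAt_F (mem_D hw)).differentiableAt (by simp)
    have h2 : DifferentiableAt ℝ g (F (Zc w)) := by
      rw [F_Zc hw]
      exact hgd.differentiableAt (by simp)
    exact P.differentiableAt.comp _ (h2.comp _ h1)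
  have h1 : HasFDerivAt ((fun z => P (g (F z))) ∘ Zc) ((fderiv ℝ (fun z => P (g (F z))) (Zc w)).comp
      (L : ℂ →L[ℝ] ℂ)) w := hd.hasFDerivAt.comp w hL.hasFDerivAt
  have h2 : HasFDerivAt (fun x => P (g x))
      (P.comp (((ContinuousLinearMap.toSpanSingleton ℂ (Complex.sinh w)) : ℂ →L[ℂ] ℂ).restrictScalars
        ℝ)) w := P.hasFDerivAt.comp w (hg.hasFDerivAt.restrictScalars ℝ)
  have h3 : ((fun z => P (g (F z))) ∘ Zc) =ᶠ[𝓝 w] (fun x => P (g x)) := by
    filter_upwards [isOpen_S.mem_nhds hw] with x hx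
    simp only [comp_apply, F_Zc hx]
  have h4 := (h1.congr_of_eventuallyEq h3.symm).unique h2
  have h5 := congrArg (fun M : ℂ →L[ℝ] ℝ => M ((Complex.sinh w)⁻¹ * k)) h4
  simp only [ContinuousLinearMap.comp_apply, ContinuousLinearMap.coe_restrictScalars',
    ContinuousLinearMap.toSpanSingleton_apply, smul_eq_mul, ContinuousLinearEquiv.coe_coe] at h5
  rw [hL', mul_inv_cancel_left₀ (sinh_ne hw)] at h5
  rw [h5]
  congr 1
  field_simp [sinh_ne hw]

theorem deriv_vals {a : ℂ} (ha : 1 < Complex.normSq a) (M : ℂ →L[ℝ] ℝ) (P : ℂ →L[ℝ] ℝ)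
    (h : ∀ k, M (Tm a k) = P k) :
    M 1 = 2 * a.re / (Complex.normSq a + 1) * P 1 - 2 * a.im / (Complex.normSq a - 1) * P Complex.I
    ∧ M Complex.I = 2 * a.im / (Complex.normSq a + 1) * P 1 +
      2 * a.re / (Complex.normSq a - 1) * P Complex.I := by
  set N := Complex.normSq a with hN
  have h1 : N - 1 ≠ 0 := by linarith
  have h2 : N + 1 ≠ 0 := by linarith
  have h3 : N ^ 2 - 1 = (N - 1) * (N + 1) := by ring
  have hlin : ∀ x y : ℝ, P ((x : ℂ) + (y : ℂ) * Complex.I) = x * P 1 + y * P Complex.I := by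
    intro x y
    have e1 : (x : ℂ) = x • (1 : ℂ) := by simp
    have e2 : (y : ℂ) * Complex.I = y • Complex.I := by simp
    rw [map_add, e2, e1, map_smul, map_smul]
    simp
  constructor
  · have e := h (2 * ((N : ℂ) * conj a - a) / ((N : ℂ) ^ 2 - 1))
    rw [Tm_one ha, k_one, hlin] at e
    rw [e, ← hN, h3]
    field_simp
    ring
  · have e := h (2 * Complex.I * ((N : ℂ) * conj a + a) / ((N : ℂ) ^ 2 - 1))
    rw [Tm_I ha, k_I, hlin] at e
    rw [e, ← hN, h3]
    field_simp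

/-- the function whose graph is minimal -/
def u (z : ℂ) : ℝ := by
  classical
  exact if z ∈ D then Uc (F z) else 0

/-- its conjugate -/
def s (z : ℂ) : ℝ := Vc (F z)

theorem u_of_mem {z : ℂ} (hz : z ∈ D) : u z = Uc (F z) := by
  simp [u, hz]

theorem u_of_notMem {z : ℂ} (hz : z ∉ D) : u z = 0 := by
  simp [u, hz]

theorem u_eventuallyEq {z : ℂ} (hz : z ∈ D) :
    u =ᶠ[𝓝 z] fun x => Complex.imCLM (Complex.cosh (F x)) := by
  filter_upwards [isOpen_D.mem_nhds hz] with x hx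
  rw [u_of_mem hx, Complex.imCLM_apply, cosh_im]

theorem s_eq : s = fun x => Complex.reCLM (Complex.cosh (F x)) := by
  funext x
  rw [s, Complex.reCLM_apply, cosh_re]

theorem contDiffAt_cosh (w : ℂ) : ContDiffAt ℝ ∞ Complex.cosh w :=
  (Complex.contDiff_cosh.contDiffAt (x := w) (n := ∞)).restrict_scalars ℝ

theorem contDiffAt_u {z : ℂ} (hz : z ∈ D) : ContDiffAt ℝ ∞ u z := by
  refine ContDiffAt.congr_of_eventuallyEq ?_ (u_eventuallyEq hz)
  exact Complex.imCLM.contDiff.contDiffAt.comp z ((contDiffAt_cosh _).comp z (contDiffAt_F hz))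

theorem contDiffAt_s {z : ℂ} (hz : z ∈ D) : ContDiffAt ℝ ∞ s z := by
  rw [s_eq]
  exact Complex.reCLM.contDiff.contDiffAt.comp z ((contDiffAt_cosh _).comp z (contDiffAt_F hz))

theorem grad_u {z : ℂ} (hz : z ∈ D) :
    dx u z = -(2 * (af (F z)).im / (Complex.normSq (af (F z)) - 1)) ∧
    dy u z = 2 * (af (F z)).re / (Complex.normSq (af (F z)) - 1) := by
  have hw := F_mem hz
  have h1 := fun k => fderiv_comp_F hw (Complex.hasDerivAt_cosh (F z)) (contDiffAt_cosh _)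
    Complex.imCLM k
  rw [Zc_F hz] at h1
  obtain ⟨e1, e2⟩ := deriv_vals (af_gt hw) _ Complex.imCLM h1
  rw [dx, dy, (u_eventuallyEq hz).fderiv_eq, e1, e2]
  simp

theorem grad_s {z : ℂ} (hz : z ∈ D) :
    dx s z = 2 * (af (F z)).re / (Complex.normSq (af (F z)) + 1) ∧
    dy s z = 2 * (af (F z)).im / (Complex.normSq (af (F z)) + 1) := by
  have hw := F_mem hz
  have h1 := fun k => fderiv_comp_F hw (Complex.hasDerivAt_cosh (F z)) (contDiffAt_cosh _)
    Complex.reCLM k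
  rw [Zc_F hz] at h1
  obtain ⟨e1, e2⟩ := deriv_vals (af_gt hw) _ Complex.reCLM h1
  rw [dx, dy, s_eq, e1, e2]
  simp

/-- `∇u/W = i ∇s` -/
theorem flux {z : ℂ} (hz : z ∈ D) :
    dx u z / √(1 + dx u z ^ 2 + dy u z ^ 2) = - dy s z ∧
    dy u z / √(1 + dx u z ^ 2 + dy u z ^ 2) = dx s z := by
  obtain ⟨u1, u2⟩ := grad_u hz
  obtain ⟨s1, s2⟩ := grad_s hz
  have ha := af_gt (F_mem hz)
  set a := af (F z)
  set N := Complex.normSq a with hN
  have hN' : a.re ^ 2 + a.im ^ 2 = N := by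
    rw [hN, Complex.normSq_apply]
    ring
  have h1 : 0 < N - 1 := by linarith
  have h2 : 0 < N + 1 := by linarith
  have hW : √(1 + dx u z ^ 2 + dy u z ^ 2) = (N + 1) / (N - 1) := by
    have : 1 + dx u z ^ 2 + dy u z ^ 2 = ((N + 1) / (N - 1)) ^ 2 := by
      rw [u1, u2]
      field_simp
      linear_combination 4 * hN'
    rw [this, Real.sqrt_sq (by positivity)]
  rw [hW, u1, u2, s1, s2]
  constructor <;> field_simp

theorem mse {z : ℂ} (hz : z ∈ D) :
    dx (fun x => dx u x / √(1 + dx u x ^ 2 + dy u x ^ 2)) z +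
    dy (fun x => dy u x / √(1 + dx u x ^ 2 + dy u x ^ 2)) z = 0 := by
  have e1 : (fun x => dx u x / √(1 + dx u x ^ 2 + dy u x ^ 2)) =ᶠ[𝓝 z] fun x => - dy s x := by
    filter_upwards [isOpen_D.mem_nhds hz] with x hx
    exact (flux hx).1
  have e2 : (fun x => dy u x / √(1 + dx u x ^ 2 + dy u x ^ 2)) =ᶠ[𝓝 z] fun x => dx s x := by
    filter_upwards [isOpen_D.mem_nhds hz] with x hx
    exact (flux hx).2
  rw [dx, dy, e1.fderiv_eq, e2.fderiv_eq]
  have hs := contDiffAt_s hz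
  have hds : DifferentiableAt ℝ (fderiv ℝ s) z :=
    (hs.fderiv_right (m := 1) (by norm_cast)).differentiableAt (by simp)
  have k1 : fderiv ℝ (fun x => - dy s x) z 1 = - (fderiv ℝ (fderiv ℝ s) z 1) Complex.I := by
    have : HasFDerivAt (fun x => - dy s x)
        (-((ContinuousLinearMap.apply ℝ ℝ Complex.I).comp (fderiv ℝ (fderiv ℝ s) z))) z := by
      have := ((ContinuousLinearMap.apply ℝ ℝ Complex.I).hasFDerivAt.comp z hds.hasFDerivAt).neg
      exact this
    rw [this.fderiv]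
    rfl
  have k2 : fderiv ℝ (fun x => dx s x) z Complex.I = (fderiv ℝ (fderiv ℝ s) z Complex.I) 1 := by
    have : HasFDerivAt (fun x => dx s x)
        ((ContinuousLinearMap.apply ℝ ℝ (1 : ℂ)).comp (fderiv ℝ (fderiv ℝ s) z)) z :=
      (ContinuousLinearMap.apply ℝ ℝ (1 : ℂ)).hasFDerivAt.comp z hds.hasFDerivAt
    rw [this.fderiv]
    rfl
  rw [k1, k2]
  have hsym : IsSymmSndFDerivAt ℝ s z := hs.isSymmSndFDerivAt (by
    rw [minSmoothness_of_isRCLikeNormedField]; exact ENat.LEInfty.out)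
  rw [hsym 1 Complex.I]
  ring

end

end Pool.Agent.R745.MG
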