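import Pool.Agent.R745.MG.Sol

/-!
# The minimal graph: boundary behaviour, half plane, growth
-/

set_option autoImplicit false
open Set Function Filter
open scoped ContDiff Topology ComplexConjugate

namespace Pool.Agent.R745.MG

noncomputable section

/-- compact pieces of the closed half strip without its bad boundary point -/
def K (δ M : ℝ) : Set ℂ :=
  {w | (0 ≤ w.re ∧ w.re ≤ M ∧ 0 ≤ w.im ∧ w.im ≤ Real.pi) ∧ δ ≤ rho w}

theorem continuous_rho : Continuous rho := by
  unfold rho
  have h1 : Continuous fun w : ℂ => w.re := Complex.continuous_re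
  have h2 : Continuous fun w : ℂ => w.im := Complex.continuous_im
  fun_prop

theorem isCompact_K (δ M : ℝ) : IsCompact (K δ M) := by
  have h1 : IsCompact (Icc (0 : ℝ) M ×ℂ Icc (0 : ℝ) Real.pi) := isCompact_Icc.reProdIm isCompact_Icc
  have h2 : K δ M = (Icc (0 : ℝ) M ×ℂ Icc (0 : ℝ) Real.pi) ∩ {w | δ ≤ rho w} := by
    ext w
    simp only [K, Complex.mem_reProdIm, mem_Icc, mem_ofPred_eq, mem_inter_iff]
    tauto
  rw [h2]
  exact h1.inter_right (isClosed_le continuous_const continuous_rho)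

theorem continuousOn_Zc' : ContinuousOn Zc {w | 0 < rho w} := by
  have h1 : Continuous fun w : ℂ => w.re := Complex.continuous_re
  have h2 : Continuous fun w : ℂ => w.im := Complex.continuous_im
  have hr : ContinuousOn rho {w | 0 < rho w} := continuous_rho.continuousOn
  have hx : ContinuousOn Xc {w | 0 < rho w} := by
    unfold Xc
    exact (by fun_prop : Continuous fun w : ℂ => Real.cosh w.re * Real.cos w.im).continuousOn.mul
      (continuousOn_const.add (continuousOn_const.div hr fun w hw => (ne_of_gt hw)))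
  have hy : ContinuousOn Yc {w | 0 < rho w} := by
    unfold Yc
    exact continuousOn_const.mul (h1.continuousOn.sub
      ((by fun_prop : Continuous fun w : ℂ => Real.sinh w.re * Real.cosh w.re).continuousOn.div hr
        fun w hw => (ne_of_gt hw)))
  have e : Zc = fun w => (Xc w : ℂ) + (Yc w : ℂ) * Complex.I := by
    funext w
    apply Complex.ext <;> simp [Zc]
  rw [e]
  exact (Complex.continuous_ofReal.comp_continuousOn hx).add
    ((Complex.continuous_ofReal.comp_continuousOn hy).mul continuousOn_const)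

theorem continuous_Uc : Continuous Uc := by
  unfold Uc
  have h1 : Continuous fun w : ℂ => w.re := Complex.continuous_re
  have h2 : Continuous fun w : ℂ => w.im := Complex.continuous_im
  fun_prop

theorem coth_le {p : ℝ} (hp : 1 ≤ p) : Real.cosh p ≤ 2 * Real.sinh p := by
  have h1 : p ≤ Real.sinh p := Real.self_le_sinh_iff.2 (by linarith)
  have h2 := Real.cosh_sq p
  have h3 := Real.cosh_pos p
  nlinarith

/-- properness -/
theorem mem_K {w : ℂ} (hw : w ∈ S) {R : ℝ} (hR : ‖Zc w‖ ≤ R) :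
    w ∈ K (1 / (R + 1) ^ 2) (R / 2 + 2) := by
  have hR0 : 0 ≤ R := (norm_nonneg _).trans hR
  have hρ := rho_pos hw
  have hX : |Xc w| ≤ R := (Complex.abs_re_le_norm (Zc w)).trans hR
  have hY : |Yc w| ≤ R := (Complex.abs_im_le_norm (Zc w)).trans hR
  obtain ⟨hp, hq0, hq1⟩ := hw
  have hs : 0 < Real.sinh w.re := Real.sinh_pos_iff.2 hp
  have hps : w.re ≤ Real.sinh w.re := Real.self_le_sinh_iff.2 hp.le
  have hch : 1 ≤ Real.cosh w.re := Real.one_le_cosh _
  refine ⟨⟨hp.le, ?_, hq0.le, hq1.le⟩, ?_⟩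
  · by_contra hcon
    push Not at hcon
    have hp1 : 1 ≤ w.re := by linarith
    have h1 := coth_le hp1
    have h2 : Real.sinh w.re * Real.cosh w.re / rho w ≤ 2 := by
      rw [div_le_iff₀ hρ, rho]
      nlinarith [sq_nonneg (Real.cos w.im)]
    have h3 : Yc w ≤ R := (le_abs_self _).trans hY
    rw [Yc] at h3
    linarith
  · by_contra hcon
    push Not at hcon
    set t := √(rho w) with ht
    have ht0 : 0 < t := Real.sqrt_pos.2 hρ
    have ht2 : t ^ 2 = rho w := Real.sq_sqrt hρ.le
    have hR1 : 0 < R + 1 := by linarith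
    have ht1 : t * (R + 1) < 1 := by
      rw [lt_div_iff₀ (by positivity), ← ht2] at hcon
      have h2 : (t * (R + 1)) ^ 2 < 1 := by
        calc (t * (R + 1)) ^ 2 = t ^ 2 * (R + 1) ^ 2 := by ring
          _ < 1 := hcon
      have h3 : 0 ≤ t * (R + 1) := by positivity
      nlinarith
    have ht1' : t < 1 := by nlinarith
    -- lower bounds
    have hinv : 1 ≤ 1 / rho w := by
      rw [le_div_iff₀ hρ, ← ht2]
      nlinarith
    have hcos : |Real.cos w.im| ^ 2 = Real.cos w.im ^ 2 := sq_abs _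
    have hX2 : 2 * |Real.cos w.im| * (1 / rho w - 1) ≤ |Xc w| := by
      rw [Xc, abs_mul, abs_mul, abs_of_pos (Real.cosh_pos _)]
      have e1 : |1 + 2 / rho w| = 1 + 2 * (1 / rho w) := by
        rw [abs_of_pos (by positivity)]
        ring
      rw [e1]
      have e2 : 0 ≤ |Real.cos w.im| := abs_nonneg _
      have e3 : |Real.cos w.im| * (1 + 2 * (1 / rho w)) ≤
          Real.cosh w.re * |Real.cos w.im| * (1 + 2 * (1 / rho w)) := by
        have : |Real.cos w.im| ≤ Real.cosh w.re * |Real.cos w.im| := by nlinarith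
        exact mul_le_mul_of_nonneg_right this (by linarith)
      nlinarith
    have hY2 : 2 * Real.sinh w.re * (1 / rho w - 1) ≤ |Yc w| := by
      have e1 : 2 * Real.sinh w.re * (1 / rho w - 1) ≤ - Yc w := by
        rw [Yc]
        have e2 : Real.sinh w.re * Real.cosh w.re / rho w =
            Real.sinh w.re * Real.cosh w.re * (1 / rho w) := by ring
        rw [e2]
        have e3 : Real.sinh w.re * (1 / rho w) ≤ Real.sinh w.re * Real.cosh w.re * (1 / rho w) := by
          have : Real.sinh w.re ≤ Real.sinh w.re * Real.cosh w.re := by nlinarith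
          exact mul_le_mul_of_nonneg_right this (by linarith)
        linarith
      exact e1.trans (neg_le_abs _)
    have hsum : t ≤ |Real.cos w.im| + Real.sinh w.re := by
      have e2 : 0 ≤ |Real.cos w.im| := abs_nonneg _
      have : t ^ 2 ≤ (|Real.cos w.im| + Real.sinh w.re) ^ 2 := by
        rw [ht2, rho]
        nlinarith
      exact (pow_le_pow_iff_left₀ ht0.le (by positivity) two_ne_zero).1 this
    have h5 : 2 * t * (1 / rho w - 1) ≤ 2 * R := by
      have : t * (1 / rho w - 1) ≤ (|Real.cos w.im| + Real.sinh w.re) * (1 / rho w - 1) :=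
        mul_le_mul_of_nonneg_right hsum (by linarith)
      nlinarith
    have h6 : t * (1 / rho w - 1) = (1 - t ^ 2) / t := by
      rw [← ht2]
      field_simp
    have h7 : (1 - t ^ 2) / t ≤ R := by
      rw [← h6]
      linarith
    rw [div_le_iff₀ ht0] at h7
    nlinarith

theorem mem_of_closure {P : ℂ} (hP : P ∈ closure D) {R : ℝ} (hR : ‖P‖ < R) :
    ∃ w ∈ K (1 / (R + 1) ^ 2) (R / 2 + 2), Zc w = P := by
  have hR0 : 0 < R := (norm_nonneg _).trans_lt hR
  have hc : IsCompact (Zc '' K (1 / (R + 1) ^ 2) (R / 2 + 2)) := by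
    apply (isCompact_K _ _).image_of_continuousOn
    apply continuousOn_Zc'.mono
    intro w hw
    exact lt_of_lt_of_le (by positivity) hw.2
  have hsub : D ∩ Metric.ball 0 R ⊆ Zc '' K (1 / (R + 1) ^ 2) (R / 2 + 2) := by
    rintro _ ⟨⟨w, hw, rfl⟩, hb⟩
    exact ⟨w, mem_K hw (mem_ball_zero_iff.1 hb).le, rfl⟩
  have h1 : P ∈ closure (D ∩ Metric.ball 0 R) := by
    rw [mem_closure_iff_nhds] at hP ⊢
    intro t ht
    obtain ⟨y, hy1, hy2⟩ := hP (t ∩ Metric.ball 0 R)
      (inter_mem ht (Metric.isOpen_ball.mem_nhds (by simpa using hR)))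
    exact ⟨y, hy1.1, hy2, hy1.2⟩
  exact closure_minimal hsub hc.isClosed h1

theorem bdry {w : ℂ} {δ M : ℝ} (hw : w ∈ K δ M) (hδ : 0 < δ) (hS : w ∉ S) :
    0 ≤ Yc w ∧ Uc w = 0 := by
  obtain ⟨⟨h1, -, h2, h3⟩, h4⟩ := hw
  have hρ : 0 < rho w := lt_of_lt_of_le hδ h4
  by_cases hre : w.re = 0
  · constructor
    · simp [Yc, hre]
    · simp [Uc, hre]
  · have hre' : 0 < w.re := lt_of_le_of_ne h1 (Ne.symm hre)
    have him : w.im = 0 ∨ w.im = Real.pi := by
      by_contra hcon
      push Not at hcon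
      exact hS ⟨hre', lt_of_le_of_ne h2 (Ne.symm hcon.1), lt_of_le_of_ne h3 hcon.2⟩
    have hcs : Real.cos w.im ^ 2 = 1 ∧ Real.sin w.im = 0 := by
      rcases him with h | h <;> simp [h]
    have hrho : rho w = Real.cosh w.re ^ 2 := by
      rw [rho, hcs.1, Real.cosh_sq]
    constructor
    · rw [Yc, hrho]
      have := sub_tanh_mono h1
      simp at this
      have e : Real.sinh w.re * Real.cosh w.re / Real.cosh w.re ^ 2 =
          Real.sinh w.re / Real.cosh w.re := by
        have := (Real.cosh_pos w.re).ne'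
        field_simp
      rw [e]
      linarith
    · rw [Uc, hcs.2, mul_zero]

theorem half_plane : {z : ℂ | z.im < 0} ⊆ D := by
  have hconv : Convex ℝ {z : ℂ | z.im < 0} := convex_halfSpace_im_lt 0
  apply hconv.isPreconnected.subset_of_closure_inter_subset isOpen_D
  · have hw : (⟨1, Real.pi / 2⟩ : ℂ) ∈ S :=
      ⟨one_pos, by simp [Real.pi_pos], by simp; linarith [Real.pi_pos]⟩
    refine ⟨Zc ⟨1, Real.pi / 2⟩, ?_, mem_D hw⟩
    show Yc ⟨1, Real.pi / 2⟩ < 0
    have hs : 0 < Real.sinh 1 := Real.sinh_pos_iff.2 one_pos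
    have hlt := Real.sinh_lt_cosh 1
    rw [Yc, rho]
    simp only [Real.cos_pi_div_two]
    have : Real.sinh 1 * Real.cosh 1 / (Real.sinh 1 ^ 2 + 0 ^ 2) = Real.cosh 1 / Real.sinh 1 := by
      field_simp
      ring
    rw [this]
    have : 1 < Real.cosh 1 / Real.sinh 1 := (one_lt_div hs).2 hlt
    linarith
  · rintro P ⟨hP, him⟩
    obtain ⟨w, hw, hwP⟩ := mem_of_closure hP (R := ‖P‖ + 1) (by linarith)
    by_cases hS : w ∈ S
    · rw [← hwP]
      exact mem_D hS
    · exfalso
      have := (bdry hw (by positivity) hS).1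
      have h2 : P.im = Yc w := by rw [← hwP]; rfl
      have h3 : P.im < 0 := him
      linarith

theorem u_pos {z : ℂ} (hz : z ∈ D) : 0 < u z := by
  rw [u_of_mem hz]
  obtain ⟨h1, h2, h3⟩ := F_mem hz
  exact mul_pos (Real.sinh_pos_iff.2 h1) (Real.sin_pos_of_pos_of_lt_pi h2 h3)

theorem u_nonneg (z : ℂ) : 0 ≤ u z := by
  by_cases hz : z ∈ D
  · exact (u_pos hz).le
  · rw [u_of_notMem hz]

theorem continuous_u : Continuous u := by
  rw [continuous_iff_continuousAt]
  intro P
  by_cases hP : P ∈ D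
  · exact (contDiffAt_u hP).continuousAt
  · rw [ContinuousAt, u_of_notMem hP, Metric.tendsto_nhds]
    intro ε hε
    set R := ‖P‖ + 1 with hR
    let A : Set ℂ := K (1 / (R + 1) ^ 2) (R / 2 + 2) ∩ {w | ε ≤ Uc w}
    have hRpos : 0 < R := by positivity
    have hA : IsCompact A := (isCompact_K _ _).inter_right
      (isClosed_le continuous_const continuous_Uc)
    have hZA : IsCompact (Zc '' A) := by
      apply hA.image_of_continuousOn
      apply continuousOn_Zc'.mono
      intro w hw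
      exact lt_of_lt_of_le (by positivity) hw.1.2
    have hPA : P ∉ Zc '' A := by
      rintro ⟨w, ⟨hw1, hw2⟩, rfl⟩
      have hS : w ∉ S := fun h => hP (mem_D h)
      have := (bdry hw1 (by positivity) hS).2
      have h2 : ε ≤ Uc w := hw2
      linarith
    have h1 : (Zc '' A)ᶜ ∈ 𝓝 P := hZA.isClosed.isOpen_compl.mem_nhds hPA
    have h2 : Metric.ball (0 : ℂ) R ∈ 𝓝 P :=
      Metric.isOpen_ball.mem_nhds (by simp [hR])
    filter_upwards [h1, h2] with z hz1 hz2
    rw [Real.dist_eq, sub_zero, abs_of_nonneg (u_nonneg z)]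
    by_cases hz : z ∈ D
    · rw [u_of_mem hz]
      by_contra hcon
      push Not at hcon
      apply hz1
      refine ⟨F z, ⟨mem_K (F_mem hz) ?_, hcon⟩, Zc_F hz⟩
      rw [Zc_F hz]
      simpa using (mem_ball_zero_iff.1 hz2).le
    · rw [u_of_notMem hz]
      exact hε

theorem isConnected_D : IsConnected D := by
  have hS : Convex ℝ S := by
    have : S = {w : ℂ | 0 < w.re} ∩ ({w : ℂ | 0 < w.im} ∩ {w : ℂ | w.im < Real.pi}) := rfl
    rw [this]
    exact (convex_halfSpace_re_gt 0).inter ((convex_halfSpace_im_gt 0).inter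
      (convex_halfSpace_im_lt _))
  refine ⟨⟨_, half_plane (show (-Complex.I).im < 0 by simp)⟩, ?_⟩
  exact hS.isPreconnected.image _ continuousOn_Zc

/-- exponential growth along the vertical axis -/
theorem growth (C r₀ : ℝ) : ∃ z ∈ D, r₀ < ‖z‖ ∧ C * ‖z‖ < u z := by
  set p := max 3 (max (8 * |C| + 1) (r₀ / 2 + 3)) with hp
  have hp3 : 3 ≤ p := le_max_left _ _
  have hpC : 8 * |C| + 1 ≤ p := (le_max_left _ _).trans (le_max_right _ _)
  have hpr : r₀ / 2 + 3 ≤ p := (le_max_right _ _).trans (le_max_right _ _)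
  have hw : (⟨p, Real.pi / 2⟩ : ℂ) ∈ S :=
    ⟨by simp; linarith, by simp [Real.pi_pos], by simp; linarith [Real.pi_pos]⟩
  have hs : 0 < Real.sinh p := Real.sinh_pos_iff.2 (by linarith)
  have hX : Xc ⟨p, Real.pi / 2⟩ = 0 := by simp [Xc]
  have hY : Yc ⟨p, Real.pi / 2⟩ = 2 * (p - Real.cosh p / Real.sinh p) := by
    rw [Yc, rho]
    simp only [Real.cos_pi_div_two]
    congr 2
    field_simp
    ring
  have h1 : Real.cosh p / Real.sinh p ≤ 2 := by
    rw [div_le_iff₀ hs]
    exact coth_le (by linarith)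
  have h2 : 0 < Real.cosh p / Real.sinh p := by
    have := Real.cosh_pos p
    positivity
  have hY0 : 0 < Yc ⟨p, Real.pi / 2⟩ := by
    rw [hY]
    linarith
  have hnorm : ‖Zc ⟨p, Real.pi / 2⟩‖ = Yc ⟨p, Real.pi / 2⟩ := by
    have : Zc ⟨p, Real.pi / 2⟩ = (Yc ⟨p, Real.pi / 2⟩ : ℂ) * Complex.I := by
      apply Complex.ext <;> simp [Zc, hX]
    rw [this, norm_mul, Complex.norm_I, mul_one, Complex.norm_real, Real.norm_of_nonneg hY0.le]
  refine ⟨Zc ⟨p, Real.pi / 2⟩, mem_D hw, ?_, ?_⟩
  · rw [hnorm, hY]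
    linarith
  · rw [hnorm, u_of_mem (mem_D hw), F_Zc hw]
    have hU : Uc ⟨p, Real.pi / 2⟩ = Real.sinh p := by simp [Uc]
    rw [hU]
    have h3 : p ^ 2 / 4 ≤ Real.sinh p := by
      rw [Real.sinh_eq]
      have h4 := Real.quadratic_le_exp_of_nonneg (x := p) (by linarith)
      have h5 : Real.exp (-p) ≤ 1 := Real.exp_le_one_iff.2 (by linarith)
      nlinarith
    have h6 : C * Yc ⟨p, Real.pi / 2⟩ ≤ |C| * (2 * p) := by
      have h7 : Yc ⟨p, Real.pi / 2⟩ ≤ 2 * p := by
        rw [hY]
        linarith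
      calc C * Yc ⟨p, Real.pi / 2⟩ ≤ |C| * Yc ⟨p, Real.pi / 2⟩ :=
            mul_le_mul_of_nonneg_right (le_abs_self C) hY0.le
        _ ≤ |C| * (2 * p) := mul_le_mul_of_nonneg_left h7 (abs_nonneg C)
    nlinarith [abs_nonneg C]

end

end Pool.Agent.R745.MG
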